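import Mathlib
import Pool.Agent.W147.LF.Stm2

set_option autoImplicit false

namespace Pool.Agent.W121.LF

open Polynomial Pool.Agent.W147.LF

theorem t_AV : S_AV := by
  intro K _ _ S g y hg hS
  classical
  by_contra hcon
  push Not at hcon
  choose t ht using hcon
  obtain ⟨i, hi, j, hj, hij, he⟩ := Finset.exists_ne_map_eq_of_card_lt_of_maps_to
    (s := Finset.range (S.card + 1)) (t := S) (f := fun j => t (X ^ j))
    (by simp) (by intro j _; exact (ht (X ^ j)).1)
  have h1 := (ht (X ^ i)).2
  have h2 := (ht (X ^ j)).2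
  rw [he] at h1
  have h3 : g ∣ X ^ i - X ^ j := by
    have := dvd_sub h1 h2
    simpa using this
  have h4 : (X ^ i - X ^ j : K[X]) ≠ 0 := by
    intro h
    apply hij
    have := congrArg natDegree (sub_eq_zero.1 h)
    simpa using this
  have h5 := natDegree_le_of_dvd h3 h4
  have h6 : (X ^ i - X ^ j : K[X]).natDegree ≤ S.card := by
    refine (natDegree_sub_le _ _).trans ?_
    rw [natDegree_X_pow, natDegree_X_pow]
    rw [Finset.mem_range] at hi hj
    omega
  omega

end Pool.Agent.W121.LF
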